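import Pool.Agent.H63.CM.Defs

/-!
# Long gaps in Cramér's model, from the numerical bound `num_gap`
-/

set_option autoImplicit false

open Filter Real MeasureTheory ProbabilityTheory

namespace Pool.Agent.H63.CM

/-- the block of the `m ≥ 3` with `j ^ 2 - (log (j ^ 2)) ^ 2 / 4 < m < j ^ 2` (empty for `j < j0`) -/
private noncomputable def blk (j0 j : ℕ) : Finset ℕ :=
  if j0 ≤ j then (Finset.range (j ^ 2)).filter
    (fun m => 3 ≤ m ∧ ((j ^ 2 : ℕ) : ℝ) - m < (log (j ^ 2 : ℕ)) ^ 2 / 4) else ∅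

private theorem mem_blk {j0 j m : ℕ} : m ∈ blk j0 j ↔
    j0 ≤ j ∧ m < j ^ 2 ∧ 3 ≤ m ∧ ((j ^ 2 : ℕ) : ℝ) - m < (log (j ^ 2 : ℕ)) ^ 2 / 4 := by
  unfold blk
  split_ifs with h
  · simp [h]
  · simp [h]

private theorem log_small : ∃ j0 : ℕ, ∀ j : ℕ, j0 ≤ j →
    (log (j ^ 2 : ℕ)) ^ 2 / 4 ≤ 2 * (j : ℝ) - 4 ∧ 3 ≤ j := by
  have h1 : ∀ᶠ x : ℝ in atTop, ‖(log x) ^ 2‖ ≤ 1 * ‖x‖ :=
    (isLittleO_pow_log_id_atTop (n := 2)).bound one_pos
  have h2 : ∀ᶠ j : ℕ in atTop, ‖(log (j : ℝ)) ^ 2‖ ≤ 1 * ‖(j : ℝ)‖ :=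
    tendsto_natCast_atTop_atTop.eventually h1
  obtain ⟨j0, hj0⟩ := eventually_atTop.1 (h2.and (eventually_ge_atTop 4))
  refine ⟨j0, fun j hj => ?_⟩
  obtain ⟨h3, h4⟩ := hj0 j hj
  have h5 : (4 : ℝ) ≤ j := by exact_mod_cast h4
  rw [Real.norm_eq_abs, Real.norm_eq_abs, abs_of_nonneg (by positivity), abs_of_nonneg (by positivity)] at h3
  have h6 : log ((j ^ 2 : ℕ) : ℝ) = 2 * log j := by
    push_cast
    rw [Real.log_pow]
    norm_num
  refine ⟨?_, by omega⟩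
  rw [h6]
  nlinarith

private theorem blk_disj {j0 : ℕ} (h0 : ∀ j : ℕ, j0 ≤ j →
    (log (j ^ 2 : ℕ)) ^ 2 / 4 ≤ 2 * (j : ℝ) - 4 ∧ 3 ≤ j) {i j : ℕ} (hij : i < j) :
    Disjoint (blk j0 i) (blk j0 j) := by
  rw [Finset.disjoint_left]
  intro m hi hj
  rw [mem_blk] at hi hj
  obtain ⟨-, hi2, -, -⟩ := hi
  obtain ⟨hj1, hj2, -, hj4⟩ := hj
  obtain ⟨h1, h2⟩ := h0 j hj1
  have h3 : (m : ℝ) < (i : ℝ) ^ 2 := by exact_mod_cast hi2
  have h4 : (i : ℝ) + 1 ≤ j := by exact_mod_cast hij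
  have h5 : (0 : ℝ) ≤ i := by positivity
  push_cast at hj4 h1
  nlinarith

private theorem meas_block {Ω : Type*} [MeasurableSpace Ω] {μ : Measure Ω} [IsProbabilityMeasure μ]
    {P : Ω → Set ℕ} (h : IsCramer μ P) (B : Finset ℕ) :
    μ (⋂ m ∈ B, {ω | m ∈ P ω}ᶜ) = ∏ m ∈ B, μ ({ω | m ∈ P ω}ᶜ) := by
  have h1 : iIndep (fun m : ℕ => MeasurableSpace.generateFrom {{ω | m ∈ P ω}}) μ := h.indep
  refine h1.meas_biInter (fun m _ => ?_)
  exact (MeasurableSpace.measurableSet_generateFrom (Set.mem_singleton _)).compl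

private theorem indep_blk {Ω : Type*} [MeasurableSpace Ω] {μ : Measure Ω} [IsProbabilityMeasure μ]
    {P : Ω → Set ℕ} (h : IsCramer μ P) {B : ℕ → Finset ℕ} (hB : ∀ i j, i ≠ j → Disjoint (B i) (B j)) :
    iIndepSet (fun j => ⋂ m ∈ B j, {ω | m ∈ P ω}ᶜ) μ := by
  rw [iIndepSet_iff_meas_biInter]
  · intro J
    have h1 : (⋂ j ∈ J, ⋂ m ∈ B j, {ω | m ∈ P ω}ᶜ) = ⋂ m ∈ J.biUnion B, {ω | m ∈ P ω}ᶜ := by
      ext ω
      simp only [Set.mem_iInter, Finset.mem_biUnion]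
      constructor
      · rintro h2 m ⟨j, hj, hm⟩
        exact h2 j hj m hm
      · intro h2 j hj m hm
        exact h2 m ⟨j, hj, hm⟩
    rw [h1, meas_block h, Finset.prod_biUnion (fun i _ j _ hij => hB i j hij)]
    exact Finset.prod_congr rfl fun j _ => (meas_block h (B j)).symm
  · intro j
    exact Finset.measurableSet_biInter _ fun m _ => (h.meas m).compl

private theorem meas_val {Ω : Type*} [MeasurableSpace Ω] {μ : Measure Ω} [IsProbabilityMeasure μ]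
    {P : Ω → Set ℕ} (h : IsCramer μ P) (B : Finset ℕ) (hB : ∀ m ∈ B, 3 ≤ m) :
    μ (⋂ m ∈ B, {ω | m ∈ P ω}ᶜ) = ENNReal.ofReal (∏ m ∈ B, (1 - 1 / log m)) := by
  have hl : ∀ m : ℕ, 3 ≤ m → 0 ≤ 1 - 1 / log m := by
    intro m hm
    have h1 : (1 : ℝ) ≤ log m := by
      rw [Real.le_log_iff_exp_le (by positivity)]
      have h2 : (3 : ℝ) ≤ m := by exact_mod_cast hm
      exact (Real.exp_one_lt_d9.le.trans (by norm_num)).trans h2
    have h3 : 1 / log m ≤ 1 := by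
      rw [div_le_one (by linarith)]
      exact h1
    linarith
  rw [meas_block h, ENNReal.ofReal_prod_of_nonneg (fun m hm => hl m (hB m hm))]
  refine Finset.prod_congr rfl fun m hm => ?_
  rw [prob_compl_eq_one_sub (h.meas m), h.prob m (hB m hm),
    ENNReal.ofReal_sub _ (by
      have := hl m (hB m hm)
      have h4 : 0 ≤ log (m : ℝ) := Real.log_natCast_nonneg m
      positivity), ENNReal.ofReal_one]

theorem gaps_of (num_gap : ∀ᶠ j : ℕ in atTop, ∀ B : Finset ℕ,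
      (∀ m ∈ B, m < j ^ 2 ∧ ((j ^ 2 : ℕ) : ℝ) - m < (log (j ^ 2 : ℕ)) ^ 2 / 4) →
      (j : ℝ) ^ (-(2 / 3) : ℝ) ≤ ∏ m ∈ B, (1 - 1 / log m))
    {Ω : Type*} [MeasurableSpace Ω] {μ : Measure Ω} [IsProbabilityMeasure μ] {P : Ω → Set ℕ} (h : IsCramer μ P) :
    ∀ᵐ ω ∂μ, ∃ᶠ n : ℕ in atTop, ∀ m ∈ P ω, m < n → (log n) ^ 2 / 4 ≤ (n : ℝ) - m := by
  obtain ⟨j0, h0⟩ := log_small
  obtain ⟨j1, hj1⟩ := eventually_atTop.1 num_gap
  set E : ℕ → Set Ω := fun j => ⋂ m ∈ blk j0 j, {ω | m ∈ P ω}ᶜ with hE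
  have hdisj : ∀ i j, i ≠ j → Disjoint (blk j0 i) (blk j0 j) := by
    intro i j hij
    rcases lt_or_gt_of_ne hij with h1 | h1
    · exact blk_disj h0 h1
    · exact (blk_disj h0 h1).symm
  have hind : iIndepSet E μ := indep_blk h hdisj
  have hmeas : ∀ j, MeasurableSet (E j) := fun j =>
    Finset.measurableSet_biInter _ fun m _ => (h.meas m).compl
  have hlow : ∀ j, j1 ≤ j → ENNReal.ofReal ((j : ℝ) ^ (-(2 / 3) : ℝ)) ≤ μ (E j) := by
    intro j hj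
    rw [hE]
    simp only
    rw [meas_val h _ (fun m hm => (mem_blk.1 hm).2.2.1)]
    refine ENNReal.ofReal_le_ofReal (hj1 j hj _ fun m hm => ?_)
    have h2 := mem_blk.1 hm
    exact ⟨h2.2.1, h2.2.2.2⟩
  have hsum : ∑' j, μ (E j) = ⊤ := by
    by_contra hne
    have h1 : Summable fun j => (μ (E j)).toReal := ENNReal.summable_toReal hne
    have h2 : Summable fun j : ℕ => ((j : ℝ) ^ (-(2 / 3) : ℝ)) := by
      rw [← summable_nat_add_iff j1]
      have h3 := (summable_nat_add_iff j1).2 h1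
      refine Summable.of_nonneg_of_le (fun j => by positivity) (fun j => ?_) h3
      have h4 := hlow (j + j1) (by omega)
      have h5 := ENNReal.toReal_mono (measure_ne_top μ _) h4
      rwa [ENNReal.toReal_ofReal (by positivity)] at h5
    rw [Real.summable_nat_rpow] at h2
    norm_num at h2
  have hlim : μ (limsup E atTop) = 1 := measure_limsup_eq_one hmeas hind hsum
  have hae : ∀ᵐ ω ∂μ, ω ∈ limsup E atTop := by
    have hm : MeasurableSet (limsup E atTop) := MeasurableSet.measurableSet_limsup hmeas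
    exact (prob_compl_eq_zero_iff hm).2 hlim
  filter_upwards [hae] with ω hω
  have hfr : ∃ᶠ j : ℕ in atTop, ω ∈ E j := by
    rwa [mem_limsup_iff_frequently_mem] at hω
  have htend : Tendsto (fun j : ℕ => j ^ 2) atTop atTop := tendsto_pow_atTop (by norm_num)
  refine htend.frequently ?_
  refine (hfr.and_eventually (eventually_ge_atTop j0)).mono ?_
  rintro j ⟨hj, hjj⟩ m hmP hmj
  by_contra hlt
  rw [not_le] at hlt
  by_cases h3 : 3 ≤ m
  · have h4 : m ∈ blk j0 j := mem_blk.2 ⟨hjj, hmj, h3, hlt⟩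
    have h5 := hj
    rw [hE] at h5
    simp only [Set.mem_iInter, Set.mem_compl_iff, Set.mem_ofPred_eq] at h5
    exact h5 m h4 hmP
  · obtain ⟨h4, h5⟩ := h0 j hjj
    have h6 : (m : ℝ) ≤ 2 := by exact_mod_cast (by omega : m ≤ 2)
    have h7 : (3 : ℝ) ≤ j := by exact_mod_cast h5
    push_cast at hlt h4
    nlinarith

end Pool.Agent.H63.CM
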